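import Pool.Agent.N422.NWS.Stm
import Pool.Agent.N422.NW.JEN

/-!
Project NW (very famous, prime k-tuples), piece TRIG: the trigonometric estimates.
-/

set_option autoImplicit false

open Finset

namespace Run7.h956.NW

open Pool.Agent.N422.NW Pool.Agent.N422.NWS

lemma cosh_upper {y : ℝ} (h0 : 0 ≤ y) (h : y ≤ 1) : Real.cosh y ≤ 1 + y ^ 2 := by
  have h1 := Real.cosh_le_exp_half_sq y
  have hy2 : y ^ 2 ≤ 1 := by nlinarith
  have h2 : Real.exp (y ^ 2 / 2) ≤ 1 + y ^ 2 := by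
    have h3 : 1 - y ^ 2 / 2 ≤ Real.exp (-(y ^ 2 / 2)) := by
      have := Real.add_one_le_exp (-(y ^ 2 / 2)); linarith
    have h4 : (1 + y ^ 2) * (1 - y ^ 2 / 2) ≥ 1 := by nlinarith [sq_nonneg y]
    have h5 : Real.exp (y ^ 2 / 2) * Real.exp (-(y ^ 2 / 2)) = 1 := by
      rw [← Real.exp_add]; simp
    have h6 : 0 < Real.exp (y ^ 2 / 2) := Real.exp_pos _
    have h7 : Real.exp (y ^ 2 / 2) * (1 - y ^ 2 / 2) ≤ 1 := by
      calc _ ≤ Real.exp (y ^ 2 / 2) * Real.exp (-(y ^ 2 / 2)) := by gcongr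
        _ = 1 := h5
    have h8 : 0 < 1 - y ^ 2 / 2 := by nlinarith
    nlinarith
  linarith

lemma cosh_lower (x : ℝ) : 1 + x ^ 2 / 2 ≤ Real.cosh x := by
  have h1 : Real.cosh x = 1 + 2 * Real.sinh (x / 2) ^ 2 := by
    have h2 := Real.cosh_two_mul (x / 2)
    have h3 := Real.cosh_sq (x / 2)
    rw [show 2 * (x / 2) = x by ring] at h2
    linarith
  have h4 : (x / 2) ^ 2 ≤ Real.sinh (x / 2) ^ 2 := by
    rw [sq_le_sq]
    rcases le_total 0 (x / 2) with h | h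
    · rw [abs_of_nonneg h, abs_of_nonneg (Real.sinh_nonneg_iff.2 h)]
      exact Real.self_le_sinh_iff.2 h
    · rw [abs_of_nonpos h, abs_of_nonpos (Real.sinh_nonpos_iff.2 h)]
      have := Real.sinh_le_self_iff.2 h
      linarith
  nlinarith

lemma norm_pow_sub_one {w : ℂ} (hw : ‖w‖ = 1) (h : ℕ) : ‖w ^ h - 1‖ ≤ h * ‖w - 1‖ := by
  induction h with
  | zero => simp
  | succ n ih =>
    have e : w ^ (n + 1) - 1 = w ^ n * (w - 1) + (w ^ n - 1) := by ring
    rw [e]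
    refine (norm_add_le _ _).trans ?_
    rw [norm_mul, norm_pow, hw, one_pow, one_mul]
    push_cast
    linarith

lemma norm_sub_one_sq {w : ℂ} (hw : ‖w‖ = 1) : ‖w - 1‖ ^ 2 = 2 - 2 * w.re := by
  have h1 : Complex.normSq w = 1 := by rw [Complex.normSq_eq_norm_sq, hw, one_pow]
  rw [← Complex.normSq_eq_norm_sq, Complex.normSq_apply]
  rw [Complex.normSq_apply] at h1
  simp only [Complex.sub_re, Complex.one_re, Complex.sub_im, Complex.one_im, sub_zero]
  linear_combination h1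

lemma re_pow {w : ℂ} (hw : ‖w‖ = 1) (h : ℕ) : 1 - (w ^ h).re ≤ h ^ 2 * (1 - w.re) := by
  have h1 := norm_pow_sub_one hw h
  have h2 : ‖w ^ h‖ = 1 := by rw [norm_pow, hw, one_pow]
  have h3 := norm_sub_one_sq hw
  have h4 := norm_sub_one_sq h2
  have h5 : ‖w ^ h - 1‖ ^ 2 ≤ (h * ‖w - 1‖) ^ 2 := by gcongr
  rw [mul_pow, h3, h4] at h5
  nlinarith

theorem t_TRIG : S_TRIG := by
  intro v t hv ht hvt
  have hv0 : (0 : ℝ) < v := by exact_mod_cast hv
  have hx0 : 0 < v * t := mul_pos hv0 ht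
  refine ⟨fun z hz => ?_, fun x => ?_⟩
  · have hw : ‖z ^ v‖ = 1 := by rw [norm_pow, hz, one_pow]
    have hre := (abs_le.1 ((Complex.abs_re_le_norm (z ^ v)).trans hw.le))
    have hlow := cosh_lower (v * t)
    have hup := cosh_upper hx0.le hvt
    unfold cr
    refine ⟨by nlinarith [hre.2, sq_pos_of_pos hx0], by nlinarith [hre.1], ?_⟩
    intro h hh hht
    have hh0 : (1 : ℝ) ≤ h := by exact_mod_cast hh
    have hy0 : 0 ≤ (h : ℝ) * (v * t) := by positivity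
    have hup2 := cosh_upper hy0 hht
    have e1 : ((v * h : ℕ) : ℝ) * t = h * (v * t) := by push_cast; ring
    have e2 : z ^ (v * h) = (z ^ v) ^ h := by rw [pow_mul]
    rw [e1, e2]
    have h1 := re_pow hw h
    have h2 : Real.cosh (h * (v * t)) - 1 ≤ 2 * (h : ℝ) ^ 2 * (Real.cosh (v * t) - 1) := by
      have : ((h : ℝ) * (v * t)) ^ 2 = 2 * (h : ℝ) ^ 2 * ((v * t) ^ 2 / 2) := by ring
      have h3 : 2 * (h : ℝ) ^ 2 * ((v * t) ^ 2 / 2) ≤ 2 * (h : ℝ) ^ 2 * (Real.cosh (v * t) - 1) := by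
        gcongr
        linarith
      linarith
    have h4 : (h : ℝ) ^ 2 * (1 - (z ^ v).re) ≤ 2 * (h : ℝ) ^ 2 * (1 - (z ^ v).re) := by
      have : 0 ≤ (h : ℝ) ^ 2 * (1 - (z ^ v).re) := mul_nonneg (by positivity) (by linarith [hre.2])
      linarith
    linarith
  · obtain ⟨-, h2, h3, h4⟩ := t_AV x t ht
    refine ⟨?_, h3, h4⟩
    unfold cr
    exact continuous_const.sub (Complex.continuous_re.comp (h2.pow x))

end Run7.h956.NW
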